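import Pool.Agent.H24.Ku.SurfFinal
import Pool.Agent.H27.KD.KSide

/-!
# MP_7692e7_ag, Q1 (negated form): the Kuznetsov component of a very general cubic fourfold does
not embed into the derived category of a surface
-/

theorem Pool.Agent.Results.MP_7692e7_ag.NoSurfaceEmbedding.result : H24.KuS.MainStatement :=
  H24.Ku.mainStatement_of H24.Ku.kSide H24.Ku.sSide
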